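import Mathlib

/-!
# Membership of `1` in a left ideal generated by a subspace and a two-sided ideal
-/

namespace PRI98

/-- `1` in the left ideal generated by `i N` and `P`, written with spanning families -/
theorem gen_form {k A B I J : Type*} [Field k] [Ring A] [Algebra k A] [Ring B] [Algebra k B]
    [DecidableEq I] (i : B →ₐ[k] A) (s : I → A) (t : J → B)
    (hs : Submodule.span k (Set.range s) = ⊤) (ht : Submodule.span k (Set.range t) = ⊤)
    (P : TwoSidedIdeal A) (N : Submodule k B)
    (h1 : (1 : A) ∈ Ideal.span ((i '' (N : Set B)) ∪ {p | p ∈ P})) :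
    ∃ z : (I × J) →₀ k, (1 - z.sum fun p r => r • (s p.1 * i (t p.2))) ∈ P ∧
      ∀ a : I, (z.sum fun p r => if p.1 = a then r • t p.2 else 0) ∈ N := by
  classical
  -- first with elements of `N`
  have key : ∀ y ∈ Ideal.span ((i '' (N : Set B)) ∪ {p | p ∈ P}), ∀ x : A,
      ∃ w : I →₀ B, (∀ a, w a ∈ N) ∧ x * y - w.sum (fun a b => s a * i b) ∈ P := by
    intro y hy
    induction hy using Submodule.span_induction with
    | mem y hy =>
      intro x
      rcases hy with ⟨n, hn, rfl⟩ | hp
      · have hx : x ∈ Submodule.span k (Set.range s) := by rw [hs]; trivial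
        rw [Finsupp.mem_span_range_iff_exists_finsupp] at hx
        obtain ⟨c, rfl⟩ := hx
        refine ⟨c.mapRange (fun r => r • n) (zero_smul k n), fun a => ?_, ?_⟩
        · rw [Finsupp.mapRange_apply]
          exact N.smul_mem _ hn
        · rw [Finsupp.sum_mapRange_index (fun a => by rw [map_zero, mul_zero])]
          have e : (c.sum fun a r => r • s a) * i n = c.sum (fun a r => s a * i (r • n)) := by
            rw [Finsupp.sum_mul]
            refine Finsupp.sum_congr fun a _ => ?_
            rw [map_smul, mul_smul_comm, smul_mul_assoc]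
          rw [e, sub_self]
          exact P.zero_mem
      · refine ⟨0, fun a => by rw [Finsupp.coe_zero, Pi.zero_apply]; exact N.zero_mem, ?_⟩
        rw [Finsupp.sum_zero_index, sub_zero]
        exact P.mul_mem_left x y hp
    | zero =>
      intro x
      refine ⟨0, fun a => by rw [Finsupp.coe_zero, Pi.zero_apply]; exact N.zero_mem, ?_⟩
      rw [Finsupp.sum_zero_index, sub_zero, mul_zero]
      exact P.zero_mem
    | add y y' _ _ hy hy' =>
      intro x
      obtain ⟨w, hw, h⟩ := hy x
      obtain ⟨w', hw', h'⟩ := hy' x
      refine ⟨w + w', fun a => by rw [Finsupp.add_apply]; exact N.add_mem (hw a) (hw' a), ?_⟩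
      rw [Finsupp.sum_add_index' (fun a => by rw [map_zero, mul_zero])
        (fun a b b' => by rw [map_add, mul_add])]
      have := P.add_mem h h'
      rwa [show x * y - w.sum (fun a b => s a * i b) + (x * y' - w'.sum (fun a b => s a * i b))
        = x * (y + y') - (w.sum (fun a b => s a * i b) + w'.sum (fun a b => s a * i b)) by
          rw [mul_add]; abel] at this
    | smul r y _ hy =>
      intro x
      obtain ⟨w, hw, h⟩ := hy (x * r)
      refine ⟨w, hw, ?_⟩
      rwa [smul_eq_mul, ← mul_assoc]
  obtain ⟨w, hw, h⟩ := key 1 h1 1
  rw [one_mul] at h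
  -- now expand the coefficients
  have hc : ∀ b : B, ∃ c : J →₀ k, Finsupp.linearCombination k t c = b := by
    intro b
    have hb : b ∈ Submodule.span k (Set.range t) := by rw [ht]; trivial
    rw [Finsupp.mem_span_range_iff_exists_finsupp] at hb
    obtain ⟨c, hc⟩ := hb
    exact ⟨c, hc⟩
  choose c hc using hc
  let z : (I × J) →₀ k := ∑ a ∈ w.support, Finsupp.mapDomain (fun j => (a, j)) (c (w a))
  refine ⟨z, ?_, fun a => ?_⟩
  · have e : (z.sum fun p r => r • (s p.1 * i (t p.2))) = w.sum (fun a b => s a * i b) := by
      have e1 : (z.sum fun p r => r • (s p.1 * i (t p.2)))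
          = Finsupp.linearCombination k (fun p : I × J => s p.1 * i (t p.2)) z := rfl
      rw [e1, map_sum, Finsupp.sum]
      refine Finset.sum_congr rfl fun a _ => ?_
      rw [Finsupp.linearCombination_mapDomain]
      conv_rhs => rw [← hc (w a)]
      rw [Finsupp.linearCombination_apply, Finsupp.linearCombination_apply, Finsupp.sum,
        Finsupp.sum, map_sum, Finset.mul_sum]
      refine Finset.sum_congr rfl fun j _ => ?_
      rw [map_smul, mul_smul_comm]
      rfl
    rw [e]
    exact h
  · have e : (z.sum fun p r => if p.1 = a then r • t p.2 else 0) = w a := by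
      have e1 : (z.sum fun p r => if p.1 = a then r • t p.2 else 0)
          = Finsupp.linearCombination k (fun p : I × J => if p.1 = a then t p.2 else 0) z := by
        rw [Finsupp.linearCombination_apply]
        refine Finsupp.sum_congr fun p _ => ?_
        rw [smul_ite, smul_zero]
      rw [e1, map_sum]
      have e2 : ∀ b ∈ w.support, Finsupp.linearCombination k
          (fun p : I × J => if p.1 = a then t p.2 else 0)
          (Finsupp.mapDomain (fun j => (b, j)) (c (w b))) = if b = a then w b else 0 := by
        intro b _
        rw [Finsupp.linearCombination_mapDomain]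
        by_cases hb : b = a
        · rw [if_pos hb]
          refine Eq.trans ?_ (hc (w b))
          rw [Finsupp.linearCombination_apply, Finsupp.linearCombination_apply]
          refine Finsupp.sum_congr fun j _ => ?_
          simp only [Function.comp_apply, if_pos hb]
        · rw [if_neg hb, Finsupp.linearCombination_apply]
          refine Finset.sum_eq_zero fun j _ => ?_
          simp only [Function.comp_apply, if_neg hb, smul_zero]
      rw [Finset.sum_congr rfl e2, Finset.sum_ite_eq' w.support a (fun b => w b)]
      by_cases ha : a ∈ w.support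
      · rw [if_pos ha]
      · rw [if_neg ha]
        exact (Finsupp.notMem_support_iff.mp ha).symm
    rw [e]
    exact hw a

end PRI98
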