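import Mathlib

/-!
# One fibre of a map from an uncountable type to a countable one is infinite
-/

namespace PRI98

/-- an uncountable family of finite subsets of a countable set takes one value infinitely often -/
theorem pigeon {k X : Type*} [Uncountable k] [Countable X] (F : k → X) :
    ∃ s : X, {c : k | F c = s}.Infinite := by
  by_contra h
  push Not at h
  have h1 : (Set.univ : Set k) = ⋃ s : X, {c : k | F c = s} := by
    ext c
    simp
  have h2 : (Set.univ : Set k).Countable := by
    rw [h1]
    exact Set.countable_iUnion fun s => (h s).countable
  exact not_countable (α := k) (Set.countable_univ_iff.mp h2)

end PRI98
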