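import Pool.Agent.WittPrimes.Inj

/-!
# Left multiplication by long words pushes `U(W)` into `U(W_{≥ -1})` modulo an ideal

The mirror image of `Pool.WittPrimes.red`, by passing to the opposite algebra with the Witt
family `-e_n`.
-/

namespace PRI98
open Pool.WittPrimes MulOpposite

variable {k : Type*} [Field k] {p d : ℕ}
variable {U : Type*} [Ring U] [Algebra k U] (W : WittFam k U)

/-- the family `-e_n` in the opposite algebra -/
def opFam : WittFam k Uᵐᵒᵖ where
  e := fun n => -(op (W.e n))
  comm := by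
    intro m n
    have h := W.comm m n
    have h1 : -(op (W.e m)) * -(op (W.e n)) - -(op (W.e n)) * -(op (W.e m))
        = -op (W.e m * W.e n - W.e n * W.e m) := by
      rw [neg_mul_neg, neg_mul_neg, ← op_mul, ← op_mul, ← op_sub, ← op_neg]
      congr 1
      abel
    rw [h1, h, op_smul, smul_neg]
  gen := by
    rw [eq_top_iff]
    intro x _
    have key : ∀ u : U, op u ∈ Algebra.adjoin k (Set.range fun n : ℤ => -(op (W.e n))) := by
      intro u
      have hu : u ∈ Algebra.adjoin k (Set.range W.e) := by rw [W.gen]; trivial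
      refine Algebra.adjoin_induction ?_ ?_ ?_ ?_ hu
      · rintro _ ⟨n, rfl⟩
        have := Subalgebra.neg_mem _ (Algebra.subset_adjoin (R := k)
          (show -(op (W.e n)) ∈ Set.range (fun n : ℤ => -(op (W.e n))) from ⟨n, rfl⟩))
        rwa [neg_neg] at this
      · intro r
        exact Subalgebra.algebraMap_mem _ r
      · intro x y _ _ hx hy
        rw [op_add]
        exact Subalgebra.add_mem _ hx hy
      · intro x y _ _ hx hy
        rw [op_mul]
        exact Subalgebra.mul_mem _ hy hx
    have := key x.unop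
    rwa [op_unop] at this

theorem word_op (e : ℤ → U) : ∀ (p : ℕ) (n : Fin p → ℤ),
    (List.ofFn fun i => -(op (e (n i)))).prod
      = ((-1 : k) ^ p) • op ((List.ofFn fun i => e (n (Fin.rev i))).prod) := by
  intro p
  induction p with
  | zero => intro n; simp
  | succ p ih =>
    intro n
    rw [List.ofFn_succ, List.prod_cons, ih (fun i => n i.succ)]
    rw [List.ofFn_succ' (fun i => e (n (Fin.rev i))), List.concat_eq_append, List.prod_append,
      List.prod_singleton, Fin.rev_last, op_mul]
    simp only [Fin.rev_castSucc]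
    rw [pow_succ, neg_mul, mul_smul_comm, mul_neg_one, neg_smul]

theorem br_op (h : A k p) :
    br (opFam W).e h = ((-1 : k) ^ p) • op (br W.e (sub (Fin.revPerm : Equiv.Perm (Fin p)) h)) := by
  induction h using A_induction with
  | h0 => rw [map_zero, map_zero, map_zero, op_zero, smul_zero]
  | hadd f g hf hg => rw [map_add, hf, hg, map_add, map_add, op_add, smul_add]
  | hmono c n =>
    rw [map_smul, map_smul, map_smul, op_smul, smul_comm, sub_mono, push_perm, br_mono, br_mono]
    congr 1
    have := word_op (k := k) W.e p n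
    exact this

theorem unop_minus {w : Uᵐᵒᵖ} (hw : w ∈ (opFam W).minus) : w.unop ∈ W.minus := by
  have h : (opFam W).minus ≤ W.minus.op := by
    refine Algebra.adjoin_le ?_
    rintro _ ⟨n, hn, rfl⟩
    change (-(op (W.e n))).unop ∈ W.minus
    rw [unop_neg, unop_op]
    exact Subalgebra.neg_mem _ (e_mem_minus W hn)
  exact h hw

theorem sub_rev_mem_Pol {g : A k d} (hg : g ∈ Pol k d) :
    sub (Fin.revPerm : Equiv.Perm (Fin d)) g ∈ Pol k d := by
  rw [mem_Pol] at hg
  refine Submodule.span_induction ?_ ?_ ?_ ?_ hg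
  · rintro _ ⟨n, hn, rfl⟩
    rw [sub_mono, push_perm]
    exact mono_mem_Pol fun i => hn _
  · rw [map_zero]; exact Subalgebra.zero_mem _
  · intro x y _ _ hx hy; rw [map_add]; exact Subalgebra.add_mem _ hx hy
  · intro c x _ hx; rw [map_smul]; exact Subalgebra.smul_mem _ hx c

theorem sub_rev_rev (g : A k d) :
    sub (Fin.revPerm : Equiv.Perm (Fin d)) (sub (Fin.revPerm : Equiv.Perm (Fin d)) g) = g := by
  induction g using A_induction with
  | h0 => rw [map_zero, map_zero]
  | hadd f g hf hg => rw [map_add, map_add, hf, hg]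
  | hmono c n =>
    rw [map_smul, map_smul, sub_mono, sub_mono, push_perm, push_perm]
    congr 2
    funext i
    simp

theorem neg_one_sq (p : ℕ) : ((-1 : k) ^ p) * ((-1 : k) ^ p) = 1 := by
  rw [← mul_pow, neg_one_mul, neg_neg, one_pow]

theorem smul_mem_I' (K : TwoSidedIdeal U) (c : k) {x : U} (hx : x ∈ K) : c • x ∈ K := by
  rw [Algebra.smul_def]
  exact K.mul_mem_left _ _ hx

theorem OO_op {K : TwoSidedIdeal U} {M : ℕ} (hO : OO W K p M) : OO (opFam W) K.op p M := by
  intro g
  rw [br_op, TwoSidedIdeal.mem_op_iff, unop_smul, unop_op, map_mul, map_pow, sub_Dd]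
  exact smul_mem_I' K _ (hO _)

/-- the mirror image of `red` -/
theorem red_left {K : TwoSidedIdeal U} {M : ℕ} (hO : OO W K (d + 1) M) (u : U) :
    ∃ N, ∀ N' ≥ N, ∀ g ∈ Pol k d, ∃ w ∈ W.minus,
      br W.e (E d ^ N' * Dd d ^ N' * g) * u - w ∈ K := by
  obtain ⟨N, hN⟩ := red (W := opFam W) K.op (OO_op W hO) (op u)
  refine ⟨N, fun N' hN' g hg => ?_⟩
  obtain ⟨w, hw, h⟩ := (hN.mono' hN') _ (sub_rev_mem_Pol hg)
  have e : sub (Fin.revPerm : Equiv.Perm (Fin d)) (E d ^ N' * Dd d ^ N' *
      sub (Fin.revPerm : Equiv.Perm (Fin d)) g) = E d ^ N' * Dd d ^ N' * g := by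
    rw [map_mul, map_mul, map_pow, map_pow, sub_E, sub_Dd, sub_rev_rev]
  rw [br_op, e, TwoSidedIdeal.mem_op_iff, unop_sub, unop_mul, unop_smul, unop_op, unop_op] at h
  refine ⟨((-1 : k) ^ d) • w.unop, Subalgebra.smul_mem _ (unop_minus W hw) _, ?_⟩
  have h1 := smul_mem_I' K ((-1 : k) ^ d) h
  rwa [smul_sub, smul_mul_assoc, smul_smul, neg_one_sq, one_smul] at h1

end PRI98
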