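import Pool.Agent.PRI98.Step
import Pool.Agent.PRI22.Unit
import Pool.Agent.PRI65.Max
import Pool.Agent.PRI65.Tr
import Pool.Agent.R12.Br
import Pool.Agent.R12.Contr

/-!
# Some translate is good (no uncountability)
-/

namespace PRI98
open Pool.WittPrimes PRI65
open R12 (fL fL_Dq iota_bq)

attribute [local instance 100] LieRing.ofAssociativeRing

variable {k L : Type*} [Field k] [CharZero k] [LieRing L] [LieAlgebra k L]

omit [CharZero k] in
theorem fL_mem_Pol {d : ℕ} (f : MvPolynomial (Fin d) k) : (fL f : A k d) ∈ Pol k d := by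
  induction f using MvPolynomial.induction_on with
  | C a =>
    have : (fL (MvPolynomial.C a) : A k d) = algebraMap k _ a := by
      rw [← MvPolynomial.algebraMap_eq, AlgHom.commutes]
    rw [this]
    exact Subalgebra.algebraMap_mem _ a
  | add p q hp hq => rw [map_add]; exact Subalgebra.add_mem _ hp hq
  | mul_X p i hp =>
    rw [map_mul]
    refine Subalgebra.mul_mem _ hp ?_
    have : (fL (MvPolynomial.X i) : A k d) = Pool.WittPrimes.X i := by
      rw [fL, MvPolynomial.aeval_X]
    rw [this]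
    exact X_mem_Pol i

omit [CharZero k] in
theorem fL_prod_X {d : ℕ} (K : ℕ) :
    (fL (∏ i : Fin d, (MvPolynomial.X i : MvPolynomial (Fin d) k) ^ K) : A k d) = E d ^ K := by
  rw [map_prod]
  have h1 : ∀ i : Fin d, (fL ((MvPolynomial.X i : MvPolynomial (Fin d) k) ^ K) : A k d)
      = mono (Pi.single i (K : ℤ)) := by
    intro i
    rw [map_pow, fL, MvPolynomial.aeval_X, X_pow_eq]
    rfl
  rw [Finset.prod_congr rfl fun i _ => h1 i]
  have h2 : ∀ s : Finset (Fin d), (∏ i ∈ s, (mono (Pi.single i (K : ℤ)) : A k d))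
      = mono (∑ i ∈ s, Pi.single i (K : ℤ)) := by
    intro s
    induction s using Finset.induction_on with
    | empty => rw [Finset.prod_empty, Finset.sum_empty, mono_zero]
    | insert a s ha ih => rw [Finset.prod_insert ha, Finset.sum_insert ha, ih, mono_mul]
  rw [h2, E, mono, mono, AddMonoidAlgebra.single_pow, one_pow]
  congr 1
  ext i
  rw [Finset.sum_apply, Finset.sum_eq_single i]
  · simp
  · intro b _ hb
    rw [Pi.single_eq_of_ne (Ne.symm hb)]
  · intro h
    exact absurd (Finset.mem_univ i) h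

theorem exists_c (D : WittData k L) (S : LieSubalgebra k L)
    (hS : S.toSubmodule = Submodule.span k (D.b '' {n | -1 ≤ n})) {d M0 : ℕ}
    (M : Ideal (UniversalEnvelopingAlgebra k S))
    (Q : TwoSidedIdeal (UniversalEnvelopingAlgebra k S)) (hQ : ∀ a, a ∈ Q ↔ ∀ x, a * x ∈ M)
    (P : TwoSidedIdeal (UniversalEnvelopingAlgebra k L)) (hP : IsPrimeI P)
    (hr : P.comap (iotaU S) = Q) (hO : OO (famU D) P (d + 1) M0)
    (hN : ∀ M', ¬ OO (famU D) P d M') :
    ∃ c : k, (1 : UniversalEnvelopingAlgebra k L) ∉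
      Ideal.span ((iotaU S '' {w | th D S hS c w ∈ M}) ∪ {p | p ∈ P}) := by
  by_contra hcon
  push Not at hcon
  -- long words in all translates
  have h1 : ∀ a : Fin (d + 1), ∃ N, ∀ N' ≥ N, ∀ g ∈ Pol k d,
      ∀ w : UniversalEnvelopingAlgebra k S,
      iotaU S w = br (famU D).e (E d ^ N' * Dd d ^ N' * g) → th D S hS (a : k) w ∈ M := by
    intro a
    refine step_left D S hS P hO (Ideal.comap (th D S hS (a : k)) M) (fun b hb => ?_) (hcon (a : k))
    rw [Ideal.mem_comap]
    have hbQ : b ∈ Q := by rw [← hr, TwoSidedIdeal.mem_comap]; exact hb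
    have h2 := (hQ _).1 (th_mem D S hS Q (a : k) b hbQ) 1
    rwa [mul_one] at h2
  choose N hN1 using h1
  let K := ∑ a, N a
  have h2 : ∀ a : Fin (d + 1), ∀ f : MvPolynomial (Fin d) k,
      bq D S hS d ((∏ i : Fin d, (MvPolynomial.X i - MvPolynomial.C (-(a : k))) ^ (K + 1)) *
        (R12.Dq k d ^ K * f)) ∈ M := by
    intro a f
    let f' : MvPolynomial (Fin d) k := MvPolynomial.aeval
      (fun i => (MvPolynomial.X i : MvPolynomial (Fin d) k) + MvPolynomial.C (-(a : k))) f
    have hf' : MvPolynomial.aeval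
        (fun i => (MvPolynomial.X i : MvPolynomial (Fin d) k) + MvPolynomial.C (a : k)) f' = f := by
      have : (MvPolynomial.aeval (fun i => (MvPolynomial.X i : MvPolynomial (Fin d) k) +
          MvPolynomial.C (a : k))).comp (MvPolynomial.aeval
          (fun i => (MvPolynomial.X i : MvPolynomial (Fin d) k) + MvPolynomial.C (-(a : k))))
          = AlgHom.id k (MvPolynomial (Fin d) k) := by
        apply MvPolynomial.algHom_ext
        intro i
        rw [AlgHom.comp_apply, MvPolynomial.aeval_X, map_add, MvPolynomial.aeval_X,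
          MvPolynomial.aeval_C, MvPolynomial.algebraMap_eq, map_neg, AlgHom.id_apply]
        ring
      exact congrArg (fun m => m f) this
    let w := bq D S hS d ((∏ i : Fin d, (MvPolynomial.X i) ^ (K + 1)) * (R12.Dq k d ^ K * f'))
    have hw : iotaU S w = br (famU D).e (E d ^ K * Dd d ^ K * fL f') := by
      have e1 : (fL ((∏ i : Fin d, (MvPolynomial.X i : MvPolynomial (Fin d) k) ^ (K + 1)) *
          (R12.Dq k d ^ K * f')) : A k d) = E d ^ (K + 1) * (Dd d ^ K * fL f') := by
        rw [map_mul, map_mul, map_pow, fL_Dq, fL_prod_X]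
      have e2 : (mono (fun _ => -1) * E d ^ (K + 1) : A k d) = E d ^ K := by
        rw [E, mono, mono, AddMonoidAlgebra.single_pow, AddMonoidAlgebra.single_pow,
          AddMonoidAlgebra.single_mul_single, one_pow, one_pow, one_mul]
        congr 1
        ext i
        simp
      change iotaU S (bq D S hS d _) = _
      rw [iota_bq, e1, ← mul_assoc, e2, ← mul_assoc]
    have h3 := hN1 a K (Finset.single_le_sum (fun _ _ => Nat.zero_le _) (Finset.mem_univ a)) _
      (fL_mem_Pol f') w hw
    have h4 : th D S hS (a : k) w = bq D S hS d ((∏ i : Fin d,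
        (MvPolynomial.X i - MvPolynomial.C (-(a : k))) ^ (K + 1)) * (R12.Dq k d ^ K * f)) := by
      have e1 : MvPolynomial.aeval
          (fun i => (MvPolynomial.X i : MvPolynomial (Fin d) k) + MvPolynomial.C (a : k))
          ((∏ i : Fin d, (MvPolynomial.X i : MvPolynomial (Fin d) k) ^ (K + 1)) *
            (R12.Dq k d ^ K * f')) = (∏ i : Fin d,
        (MvPolynomial.X i - MvPolynomial.C (-(a : k))) ^ (K + 1)) * (R12.Dq k d ^ K * f) := by
        have e2 : MvPolynomial.aeval
            (fun i => (MvPolynomial.X i : MvPolynomial (Fin d) k) + MvPolynomial.C (a : k))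
            (R12.Dq k d) = R12.Dq k d := by
          rw [R12.Dq, map_prod]
          refine Finset.prod_congr rfl fun x _ => ?_
          rw [map_sub, MvPolynomial.aeval_X, MvPolynomial.aeval_X]
          ring
        rw [map_mul, map_mul, hf', map_prod, map_pow, e2]
        congr 1
        refine Finset.prod_congr rfl fun i _ => ?_
        rw [map_pow, MvPolynomial.aeval_X, map_neg, sub_neg_eq_add]
      change th D S hS (a : k) (bq D S hS d _) = _
      rw [th_bq, e1]
    rwa [h4] at h3
  have hinj : Function.Injective (fun a : Fin (d + 1) => -((a : ℕ) : k)) := by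
    intro a b hab
    have : ((a : ℕ) : k) = ((b : ℕ) : k) := neg_injective hab
    exact Fin.ext (Nat.cast_injective this)
  have hone : (1 : MvPolynomial (Fin d) k) ∈ Ideal.span (Set.range fun a : Fin (d + 1) =>
      ∏ i : Fin d, (MvPolynomial.X i - MvPolynomial.C (-((a : ℕ) : k))) ^ (K + 1)) := by
    rw [Pool.Agent.PRI22.unit_ideal (fun a : Fin (d + 1) => -((a : ℕ) : k)) hinj (K + 1)]
    trivial
  rw [Ideal.mem_span_range_iff_exists_fun] at hone
  obtain ⟨r, hr1⟩ := hone
  refine R12.contra D S hS M Q hQ P hP hr hO hN (K := K) (fun g => ?_)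
  have e : R12.Dq k d ^ K * g = ∑ a : Fin (d + 1), (∏ i : Fin d, (MvPolynomial.X i -
      MvPolynomial.C (-((a : ℕ) : k))) ^ (K + 1)) * (R12.Dq k d ^ K * (r a * g)) := by
    calc R12.Dq k d ^ K * g = 1 * (R12.Dq k d ^ K * g) := (one_mul _).symm
      _ = _ := by
        rw [← hr1, Finset.sum_mul]
        refine Finset.sum_congr rfl fun a _ => ?_
        ring
  rw [e, map_sum]
  exact Submodule.sum_mem _ fun a _ => h2 a (r a * g)

/-- a nonzero prime ideal of `U(W)` with primitive restriction is primitive, over every field of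
characteristic zero -/
theorem prim_nonzero (D : WittData k L) (S : LieSubalgebra k L)
    (hS : S.toSubmodule = Submodule.span k (D.b '' {n | -1 ≤ n}))
    (P : TwoSidedIdeal (UniversalEnvelopingAlgebra k L)) (hP : IsPrimeI P) (hP0 : ∃ u ∈ P, u ≠ 0)
    (M : Ideal (UniversalEnvelopingAlgebra k S)) (hM : M.IsMaximal)
    (hr : ∀ a, iotaU S a ∈ P ↔ ∀ x, a * x ∈ M) :
    ∃ N : Ideal (UniversalEnvelopingAlgebra k L), N.IsMaximal ∧ ∀ a, a ∈ P ↔ ∀ x, a * x ∈ N := by
  classical
  have hO : ∃ p, ∃ M', OO (famU D) P p M' := by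
    obtain ⟨u, hu, hu0⟩ := hP0
    exact fact1 (famU D) P hu hu0
  obtain ⟨M₁, hM₁⟩ := Nat.find_spec hO
  have hlt : ∀ q < Nat.find hO, ∀ M', ¬ OO (famU D) P q M' := fun q hq M' hM' =>
    Nat.find_min hO hq ⟨M', hM'⟩
  generalize Nat.find hO = p at hM₁ hlt
  cases p with
  | zero =>
    exfalso
    apply hP.1
    have h1 := hM₁ 1
    have h2 : (Dd 0 ^ M₁ * 1 : A k 0) = mono 0 := by
      rw [mul_one, Dd, Finset.univ_eq_empty, Finset.filter_empty, Finset.prod_empty, one_pow,
        mono_zero]
    rw [h2, br_mono, List.ofFn_zero, List.prod_nil] at h1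
    rw [eq_top_iff]
    intro x _
    have := P.mul_mem_left x 1 h1
    rwa [mul_one] at this
  | succ d =>
    have hQ : ∀ a, a ∈ annI M ↔ ∀ x, a * x ∈ M := mem_annI M
    have hr' : P.comap (iotaU S) = annI M := by
      ext a
      rw [TwoSidedIdeal.mem_comap, hQ, hr]
    obtain ⟨c, hc⟩ := exists_c D S hS M (annI M) hQ P hP hr' hM₁ (hlt d (Nat.lt_succ_self d))
    exact max_step D S hS M hM (annI M) hQ P hP hr' c hc

omit [CharZero k] in
theorem th_zero (D : WittData k L) (S : LieSubalgebra k L)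
    (hS : S.toSubmodule = Submodule.span k (D.b '' {n | -1 ≤ n}))
    (w : UniversalEnvelopingAlgebra k S) : th D S hS 0 w = w := by
  rw [th_eq, Polynomial.sum_def]
  by_cases h : 0 ∈ (Psi D S hS w).support
  · rw [Finset.sum_eq_single_of_mem 0 h]
    · rw [pow_zero, one_smul, Psi_coeff_zero]
    · intro j _ hj
      rw [zero_pow hj, zero_smul]
  · rw [Finset.sum_eq_zero]
    · rw [Polynomial.notMem_support_iff, Psi_coeff_zero] at h
      exact h.symm
    · intro j hj
      have hj0 : j ≠ 0 := by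
        rintro rfl
        exact h hj
      rw [zero_pow hj0, zero_smul]

/-- the case `P = 0`, from the properness of `U(W) M` -/
theorem prim_zero (D : WittData k L) (S : LieSubalgebra k L)
    (hS : S.toSubmodule = Submodule.span k (D.b '' {n | -1 ≤ n}))
    (P : TwoSidedIdeal (UniversalEnvelopingAlgebra k L)) (hP : IsPrimeI P)
    (hP0 : ∀ u ∈ P, u = 0)
    (M : Ideal (UniversalEnvelopingAlgebra k S)) (hM : M.IsMaximal)
    (hr : ∀ a, iotaU S a ∈ P ↔ ∀ x, a * x ∈ M)
    (hz : (1 : UniversalEnvelopingAlgebra k L) ∉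
      Ideal.span (iotaU S '' (M : Set (UniversalEnvelopingAlgebra k S)))) :
    ∃ N : Ideal (UniversalEnvelopingAlgebra k L), N.IsMaximal ∧ ∀ a, a ∈ P ↔ ∀ x, a * x ∈ N := by
  have hQ : ∀ a, a ∈ annI M ↔ ∀ x, a * x ∈ M := mem_annI M
  have hr' : P.comap (iotaU S) = annI M := by
    ext a
    rw [TwoSidedIdeal.mem_comap, hQ, hr]
  refine max_step D S hS M hM (annI M) hQ P hP hr' 0 (fun h => hz ?_)
  refine Submodule.span_le.2 ?_ h
  rintro y (⟨w, hw, rfl⟩ | hp)
  · have hw' : th D S hS 0 w ∈ M := hw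
    rw [th_zero] at hw'
    exact Ideal.subset_span ⟨w, hw', rfl⟩
  · rw [hP0 y hp]
    exact Submodule.zero_mem _

/-- every prime ideal of `U(W)` with primitive restriction is primitive -/
theorem prim_all (D : WittData k L) (S : LieSubalgebra k L)
    (hS : S.toSubmodule = Submodule.span k (D.b '' {n | -1 ≤ n}))
    (hz : ∀ M : Ideal (UniversalEnvelopingAlgebra k S), (1 : UniversalEnvelopingAlgebra k S) ∉ M →
      (1 : UniversalEnvelopingAlgebra k L) ∉
        Ideal.span (iotaU S '' (M : Set (UniversalEnvelopingAlgebra k S))))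
    (P : TwoSidedIdeal (UniversalEnvelopingAlgebra k L)) (hP : IsPrimeI P)
    (M : Ideal (UniversalEnvelopingAlgebra k S)) (hM : M.IsMaximal)
    (hr : ∀ a, iotaU S a ∈ P ↔ ∀ x, a * x ∈ M) :
    ∃ N : Ideal (UniversalEnvelopingAlgebra k L), N.IsMaximal ∧ ∀ a, a ∈ P ↔ ∀ x, a * x ∈ N := by
  by_cases hP0 : ∃ u ∈ P, u ≠ 0
  · exact prim_nonzero D S hS P hP hP0 M hM hr
  · push Not at hP0
    exact prim_zero D S hS P hP hP0 M hM hr
      (hz M fun h1 => hM.ne_top ((Ideal.eq_top_iff_one M).mpr h1))

end PRI98
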