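import Pool.Agent.WittPrimes.Main
import Pool.Agent.PRI98.RedL

/-!
# From `1 ∈ U(W) J + P` to long words in `J`
-/

namespace PRI98
open Pool.WittPrimes

attribute [local instance 100] LieRing.ofAssociativeRing

variable {k L : Type*} [Field k] [CharZero k] [LieRing L] [LieAlgebra k L]

theorem step_left {d M : ℕ} (D : WittData k L) (S : LieSubalgebra k L)
    (hS : S.toSubmodule = Submodule.span k (D.b '' {n | -1 ≤ n}))
    (P : TwoSidedIdeal (UniversalEnvelopingAlgebra k L)) (hO : OO (famU D) P (d + 1) M)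
    (J : Ideal (UniversalEnvelopingAlgebra k S)) (hJ : ∀ a, iotaU S a ∈ P → a ∈ J)
    (h : (1 : UniversalEnvelopingAlgebra k L) ∈
      Ideal.span ((iotaU S '' (J : Set (UniversalEnvelopingAlgebra k S))) ∪ {p | p ∈ P})) :
    ∃ N, ∀ N' ≥ N, ∀ g ∈ Pol k d, ∀ w : UniversalEnvelopingAlgebra k S,
      iotaU S w = br (famU D).e (E d ^ N' * Dd d ^ N' * g) → w ∈ J := by
  have key : ∀ y ∈ Ideal.span ((iotaU S '' (J : Set (UniversalEnvelopingAlgebra k S))) ∪
      {p | p ∈ P}), ∀ x : UniversalEnvelopingAlgebra k L,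
      ∃ N, ∀ N' ≥ N, ∀ g ∈ Pol k d, ∃ a ∈ J,
        br (famU D).e (E d ^ N' * Dd d ^ N' * g) * (x * y) - iotaU S a ∈ P := by
    intro y hy
    induction hy using Submodule.span_induction with
    | mem y hy =>
      intro x
      rcases hy with ⟨n, hn, rfl⟩ | hp
      · obtain ⟨N, hN⟩ := red_left (famU D) hO x
        refine ⟨N, fun N' hN' g hg => ?_⟩
        obtain ⟨w, hw, hwP⟩ := hN N' hN' g hg
        obtain ⟨w', rfl⟩ := minus_le_range D S hS hw
        refine ⟨w' * n, J.mul_mem_left w' hn, ?_⟩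
        have := P.mul_mem_right _ (iotaU S n) hwP
        rwa [sub_mul, mul_assoc, ← map_mul] at this
      · exact ⟨0, fun N' _ g _ => ⟨0, J.zero_mem, by
          rw [map_zero, sub_zero]
          exact P.mul_mem_left _ _ (P.mul_mem_left _ _ hp)⟩⟩
    | zero =>
      intro x
      exact ⟨0, fun N' _ g _ => ⟨0, J.zero_mem, by
        rw [map_zero, sub_zero, mul_zero, mul_zero]; exact P.zero_mem⟩⟩
    | add y y' _ _ hy hy' =>
      intro x
      obtain ⟨N, hN⟩ := hy x
      obtain ⟨N₁, hN₁⟩ := hy' x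
      refine ⟨max N N₁, fun N' hN' g hg => ?_⟩
      obtain ⟨a, ha, h1⟩ := hN N' (le_trans (le_max_left _ _) hN') g hg
      obtain ⟨b, hb, h2⟩ := hN₁ N' (le_trans (le_max_right _ _) hN') g hg
      refine ⟨a + b, J.add_mem ha hb, ?_⟩
      have := P.add_mem h1 h2
      rwa [show br (famU D).e (E d ^ N' * Dd d ^ N' * g) * (x * y) - iotaU S a +
          (br (famU D).e (E d ^ N' * Dd d ^ N' * g) * (x * y') - iotaU S b)
          = br (famU D).e (E d ^ N' * Dd d ^ N' * g) * (x * (y + y')) - iotaU S (a + b) by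
        rw [map_add, mul_add, mul_add]; abel] at this
    | smul r y _ hy =>
      intro x
      obtain ⟨N, hN⟩ := hy (x * r)
      refine ⟨N, fun N' hN' g hg => ?_⟩
      obtain ⟨a, ha, h1⟩ := hN N' hN' g hg
      refine ⟨a, ha, ?_⟩
      rwa [smul_eq_mul, ← mul_assoc x r y]
  obtain ⟨N, hN⟩ := key 1 h 1
  refine ⟨N, fun N' hN' g hg w hw => ?_⟩
  obtain ⟨a, ha, h1⟩ := hN N' hN' g hg
  rw [mul_one, mul_one, ← hw, ← map_sub] at h1
  have h2 := J.add_mem (hJ _ h1) ha
  rwa [sub_add_cancel] at h2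

end PRI98
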